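import Mathlib

set_option autoImplicit false

namespace Pool.Agent.Results.MP_5ead0a_co.Small

open SimpleGraph

/-- `D` is a dominating set: every vertex outside `D` has a neighbour in `D`. -/
def Dominating {V : Type} (G : SimpleGraph V) (D : Finset V) : Prop :=
  ∀ v, v ∉ D → ∃ u ∈ D, G.Adj v u

/-- The domination number. -/
noncomputable def gamma {V : Type} (G : SimpleGraph V) : ℕ :=
  sInf {k | ∃ D : Finset V, Dominating G D ∧ D.card = k}

/-- The independent domination number. -/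
noncomputable def indGamma {V : Type} (G : SimpleGraph V) : ℕ :=
  sInf {k | ∃ D : Finset V, Dominating G D ∧ G.IsIndepSet (D : Set V) ∧ D.card = k}

/-- `3`-critical: `γ(G) = 3` and `γ(G + uv) < 3` for all distinct non-adjacent `u, v`. -/
def Critical3 {V : Type} (G : SimpleGraph V) : Prop :=
  gamma G = 3 ∧ ∀ u v, u ≠ v → ¬ G.Adj u v → gamma (G ⊔ edge u v) < 3

def rows : List ℕ :=
  [266321664, 264208040, 259980776, 251526038, 234616712, 200798086, 133160836, 266316158,
   264194301, 259965051, 251519095, 234602991, 200786015, 133153983, 264454014, 262160125,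
   258244091, 250117111, 233388015, 199634911, 132128703, 69189502, 144670461, 6225403,
   1965047, 136050671, 137883615, 105897919]

def nb (u : Fin 28) : ℕ := rows.getD u.val 0

def adj (u v : Fin 28) : Bool := (nb u).testBit v.val

def G : SimpleGraph (Fin 28) where
  Adj u v := adj u v = true
  symm := ⟨by decide +kernel⟩
  loopless := ⟨by decide +kernel⟩

instance : DecidableRel G.Adj := fun u v => inferInstanceAs (Decidable (adj u v = true))

lemma two : ∀ a b : Fin 28, ∃ v, v ≠ a ∧ v ≠ b ∧ ¬ G.Adj v a ∧ ¬ G.Adj v b := by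
  decide +kernel

lemma three : ∀ a b : Fin 28, ¬ G.Adj a b → ∀ c : Fin 28, ¬ G.Adj a c → ¬ G.Adj b c →
    ∃ v, v ≠ a ∧ v ≠ b ∧ v ≠ c ∧ ¬ G.Adj v a ∧ ¬ G.Adj v b ∧ ¬ G.Adj v c := by
  decide +kernel

lemma crit : ∀ u v : Fin 28, u ≠ v → ¬ G.Adj u v → ∃ w,
    (∀ x, x = u ∨ x = v ∨ x = w ∨ G.Adj x u ∨ G.Adj x w) ∨
    (∀ x, x = u ∨ x = v ∨ x = w ∨ G.Adj x v ∨ G.Adj x w) := by
  decide +kernel

lemma big (D : Finset (Fin 28)) (hD : Dominating G D) : 3 ≤ D.card := by
  by_contra h
  obtain ⟨E, hDE, hE⟩ := Finset.exists_superset_card_eq (s := D) (n := 2) (by omega) (by simp)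
  obtain ⟨a, b, -, rfl⟩ := Finset.card_eq_two.1 hE
  obtain ⟨v, h1, h2, h3, h4⟩ := two a b
  obtain ⟨u, hu, hvu⟩ := hD v (fun hv => by have := hDE hv; simp [h1, h2] at this)
  have := hDE hu
  simp only [Finset.mem_insert, Finset.mem_singleton] at this
  rcases this with rfl | rfl
  · exact h3 hvu
  · exact h4 hvu

lemma big' (D : Finset (Fin 28)) (hD : Dominating G D) (hI : G.IsIndepSet (D : Set (Fin 28))) :
    4 ≤ D.card := by
  by_contra h
  have h3 : D.card = 3 := by have := big D hD; omega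
  obtain ⟨a, b, c, hab, hac, hbc, rfl⟩ := Finset.card_eq_three.1 h3
  obtain ⟨v, h1, h2, h3, h4, h5, h6⟩ := three a b (hI (by simp) (by simp) hab) c
    (hI (by simp) (by simp) hac) (hI (by simp) (by simp) hbc)
  obtain ⟨u, hu, hvu⟩ := hD v (by simp [h1, h2, h3])
  simp only [Finset.mem_insert, Finset.mem_singleton] at hu
  rcases hu with rfl | rfl | rfl
  · exact h4 hvu
  · exact h5 hvu
  · exact h6 hvu

lemma small (H : SimpleGraph (Fin 28)) (a w : Fin 28) (h : Dominating H {a, w}) : gamma H < 3 := by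
  have : gamma H ≤ ({a, w} : Finset (Fin 28)).card := Nat.sInf_le ⟨_, h, rfl⟩
  have h2 := Finset.card_le_two (a := a) (b := w)
  omega

theorem result : ∃ H : SimpleGraph (Fin 28), Critical3 H ∧ indGamma H = 4 := by
  refine ⟨G, ⟨?_, ?_⟩, ?_⟩
  · have h3 : 3 ∈ {k | ∃ D : Finset (Fin 28), Dominating G D ∧ D.card = k} :=
      ⟨{0, 1, 7}, by unfold Dominating; decide +kernel, by decide +kernel⟩
    refine le_antisymm (Nat.sInf_le h3) (le_csInf ⟨3, h3⟩ ?_)
    rintro k ⟨D, hD, rfl⟩
    exact big D hD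
  · intro u v huv hn
    obtain ⟨w, hw | hw⟩ := crit u v huv hn
    · refine small _ u w fun x hx => ?_
      simp only [Finset.mem_insert, Finset.mem_singleton, not_or] at hx
      rcases hw x with h | h | h | h | h
      · exact absurd h hx.1
      · exact ⟨u, by simp, Or.inr (by rw [h, edge_adj]; exact ⟨Or.inr ⟨rfl, rfl⟩, huv.symm⟩)⟩
      · exact absurd h hx.2
      · exact ⟨u, by simp, Or.inl h⟩
      · exact ⟨w, by simp, Or.inl h⟩
    · refine small _ v w fun x hx => ?_
      simp only [Finset.mem_insert, Finset.mem_singleton, not_or] at hx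
      rcases hw x with h | h | h | h | h
      · exact ⟨v, by simp, Or.inr (by rw [h, edge_adj]; exact ⟨Or.inl ⟨rfl, rfl⟩, huv⟩)⟩
      · exact absurd h hx.1
      · exact absurd h hx.2
      · exact ⟨v, by simp, Or.inl h⟩
      · exact ⟨w, by simp, Or.inl h⟩
  · have h4 : 4 ∈ {k | ∃ D : Finset (Fin 28), Dominating G D ∧
        G.IsIndepSet (D : Set (Fin 28)) ∧ D.card = k} := by
      refine ⟨{0, 1, 2, 4}, by unfold Dominating; decide +kernel, ?_, by decide +kernel⟩
      have : ∀ a ∈ ({0, 1, 2, 4} : Finset (Fin 28)), ∀ b ∈ ({0, 1, 2, 4} : Finset (Fin 28)),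
          ¬ G.Adj a b := by decide +kernel
      exact fun a ha b hb _ => this a ha b hb
    refine le_antisymm (Nat.sInf_le h4) (le_csInf ⟨4, h4⟩ ?_)
    rintro k ⟨D, hD, hI, rfl⟩
    exact big' D hD hI

end Pool.Agent.Results.MP_5ead0a_co.Small
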